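import Mathlib

open Set Filter Topology

namespace Pool.Agent.Results.MP_4b815d_gt.ConeDisk

/-- `γ` restricted to `[0, l]` is a minimizing geodesic from `p` to `q`, parametrised by arc
length. -/
def IsGeod {M : Type} [MetricSpace M] (γ : ℝ → M) (l : ℝ) (p q : M) : Prop :=
  γ 0 = p ∧ γ l = q ∧ ∀ s ∈ Icc 0 l, ∀ t ∈ Icc 0 l, dist (γ s) (γ t) = |s - t|

/-- The angle opposite to the side `c` of a Euclidean triangle with sides `a`, `b`, `c`. -/
noncomputable def cmpAngle (a b c : ℝ) : ℝ := Real.arccos ((a ^ 2 + b ^ 2 - c ^ 2) / (2 * a * b))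

/-- The unit-speed geodesics `γ`, `η` issuing from a common point make the angle `θ` there
(limit of comparison angles). -/
def HasAngle {M : Type} [MetricSpace M] (γ η : ℝ → M) (θ : ℝ) : Prop :=
  Tendsto (fun st : ℝ × ℝ => cmpAngle st.1 st.2 (dist (γ st.1) (η st.2)))
    (𝓝[>] 0 ×ˢ 𝓝[>] 0) (𝓝 θ)

/-- `CBB(0)`: complete geodesic space in which every angle of every geodesic triangle exists and is
at least the corresponding Euclidean comparison angle, and adjacent angles add up to `π`. -/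
structure IsCBB0 (M : Type) [MetricSpace M] : Prop where
  complete : CompleteSpace M
  geodesic : ∀ p q : M, ∃ γ : ℝ → M, IsGeod γ (dist p q) p q
  angle : ∀ p x y : M, p ≠ x → p ≠ y → ∀ γ η : ℝ → M, IsGeod γ (dist p x) p x →
    IsGeod η (dist p y) p y →
    ∃ θ, HasAngle γ η θ ∧ cmpAngle (dist p x) (dist p y) (dist x y) ≤ θ
  adjacent : ∀ (γ : ℝ → M) (l : ℝ) (x y : M), IsGeod γ l x y → ∀ t, 0 < t → t < l →
    ∀ (z : M) (η : ℝ → M), z ≠ γ t → IsGeod η (dist (γ t) z) (γ t) z →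
    ∀ θ₁ θ₂, HasAngle (fun s => γ (t - s)) η θ₁ → HasAngle (fun s => γ (t + s)) η θ₂ →
      θ₁ + θ₂ = Real.pi

/-- `D` is a closed topological disk whose boundary is the Jordan curve `c`, parametrised by arc
length and of length `L`. -/
structure IsDisk {M : Type} [MetricSpace M] (D : Set M) (c : ℝ → M) (L : ℝ) : Prop where
  closed : IsClosed D
  interior_disk : Nonempty (interior D ≃ₜ Metric.ball (0 : ℂ) 1)
  pos : 0 < L
  cont : Continuous c
  periodic : ∀ t, c (t + L) = c t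
  inj : InjOn c (Ico 0 L)
  boundary : range c = frontier D
  arclength : ∀ a b, a ≤ b → eVariationOn c (Icc a b) = ENNReal.ofReal (b - a)

/-- A broken geodesic with vertices `c (t 0), …, c (t (N+1))` on the arc `c|[a,b]` (with the same
end points), segments `g i` and angles `α i` at the inner vertices. -/
structure IsBroken {M : Type} [MetricSpace M] (c : ℝ → M) (a b : ℝ) (N : ℕ) (t : ℕ → ℝ)
    (g : ℕ → ℝ → M) (α : ℕ → ℝ) : Prop where
  first : t 0 = a
  last : t (N + 1) = b
  mono : ∀ i ≤ N, t i < t (i + 1)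
  seg : ∀ i ≤ N, IsGeod (g i) (dist (c (t i)) (c (t (i + 1)))) (c (t i)) (c (t (i + 1)))
  ang : ∀ i < N, HasAngle (fun s => g i (dist (c (t i)) (c (t (i + 1))) - s)) (g (i + 1))
    (α (i + 1))

/-- The swerve of the arc `c|[a,b]` is `φ`: the sums `∑ (π - α_i)` over inscribed broken geodesics
converge to `φ` as the mesh tends to `0`. -/
def HasSwerve {M : Type} [MetricSpace M] (c : ℝ → M) (a b φ : ℝ) : Prop :=
  ∀ ε > 0, ∃ δ > 0, ∀ (N : ℕ) (t : ℕ → ℝ) (g : ℕ → ℝ → M) (α : ℕ → ℝ),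
    IsBroken c a b N t g α → (∀ i ≤ N, t (i + 1) - t i < δ) →
      |∑ i ∈ Finset.range N, (Real.pi - α (i + 1)) - φ| < ε

/-- `D` (with boundary `c`, parametrised by arc length, of length `L`) is `lam`-convex: `D` is
convex, and every arc of the boundary has swerve at least `lam` times its length. -/
def LambdaConvex {M : Type} [MetricSpace M] (D : Set M) (c : ℝ → M) (lam : ℝ) : Prop :=
  (∀ x ∈ D, ∀ y ∈ D, ∀ γ, IsGeod γ (dist x y) x y → ∀ s ∈ Icc 0 (dist x y), γ s ∈ D) ∧
  ∀ a b, a < b → ∃ φ, HasSwerve c a b φ ∧ lam * (b - a) ≤ φ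

/-- `ρ = min_{p ∈ D} max_{q ∈ ∂D} |pq|`. -/
def IsCircumradius {M : Type} [MetricSpace M] (D : Set M) (ρ : ℝ) : Prop :=
  (∃ p ∈ D, (∀ q ∈ frontier D, dist p q ≤ ρ) ∧ ∃ q ∈ frontier D, dist p q = ρ) ∧
  ∀ p ∈ D, ∃ q ∈ frontier D, ρ ≤ dist p q

/-- The upper boundary arc of the lune: an arc of a circle of radius `1/lam`, of length `L/2`,
with end points `± sin (lam L/4) / lam` on the real axis. -/
noncomputable def upperArc (lam L : ℝ) : Set ℂ :=
  (fun s : ℝ => ((-(Real.sin s) / lam : ℝ) : ℂ)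
    + (((Real.cos s - Real.cos (lam * L / 4)) / lam : ℝ) : ℂ) * Complex.I) ''
    Icc (-(lam * L / 4)) (lam * L / 4)

/-- The Euclidean `lam`-convex lune of perimeter `L` (for `lam L ≤ 2π`): the compact convex region
bounded by `upperArc` and its image under the point reflection at the origin. -/
noncomputable def lune (lam L : ℝ) : Set ℂ :=
  convexHull ℝ (upperArc lam L ∪ (fun z => -z) '' upperArc lam L)

/-! ### The flat cone of total angle `π` -/

/-- The flat cone: `ℂ / ±1`, realised on the set `ℂ` through `z ↦ z²`. -/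
private def Cone : Type := ℂ

private def proj (z : ℂ) : Cone := (z ^ 2 : ℂ)

private lemma proj_surj (w : Cone) : ∃ z, proj z = w := by
  obtain ⟨z, hz⟩ := IsAlgClosed.exists_pow_nat_eq (k := ℂ) w (n := 2) (by norm_num)
  exact ⟨z, hz⟩

private lemma proj_eq {z w : ℂ} : proj z = proj w ↔ z = w ∨ z = -w := by
  show (z ^ 2 : ℂ) = w ^ 2 ↔ _
  exact sq_eq_sq_iff_eq_or_eq_neg

private lemma proj_neg (z : ℂ) : proj (-z) = proj z := proj_eq.2 (Or.inr rfl)

private noncomputable def rt (w : Cone) : ℂ := (proj_surj w).choose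

private lemma proj_rt (w : Cone) : proj (rt w) = w := (proj_surj w).choose_spec

private lemma min_neg_right (z w : ℂ) : min ‖z - -w‖ ‖z + -w‖ = min ‖z - w‖ ‖z + w‖ := by
  rw [sub_neg_eq_add, ← sub_eq_add_neg, min_comm]

private lemma min_neg_left (z w : ℂ) : min ‖-z - w‖ ‖-z + w‖ = min ‖z - w‖ ‖z + w‖ := by
  rw [show -z - w = -(z + w) by ring, show -z + w = -(z - w) by ring, norm_neg, norm_neg, min_comm]

private noncomputable def cdist (a b : Cone) : ℝ := min ‖rt a - rt b‖ ‖rt a + rt b‖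

private lemma cdist_proj (z w : ℂ) : cdist (proj z) (proj w) = min ‖z - w‖ ‖z + w‖ := by
  unfold cdist
  rcases proj_eq.1 (proj_rt (proj z)) with h | h <;> rcases proj_eq.1 (proj_rt (proj w)) with h' | h' <;>
    rw [h, h']
  · exact min_neg_right z w
  · exact min_neg_left z w
  · rw [min_neg_right, min_neg_left]

private noncomputable instance : MetricSpace Cone where
  dist := cdist
  dist_self a := by
    obtain ⟨z, rfl⟩ := proj_surj a
    show cdist _ _ = 0
    rw [cdist_proj]; simp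
  dist_comm a b := by
    obtain ⟨z, rfl⟩ := proj_surj a
    obtain ⟨w, rfl⟩ := proj_surj b
    show cdist _ _ = cdist _ _
    rw [cdist_proj, cdist_proj, norm_sub_rev, add_comm]
  dist_triangle a b c := by
    obtain ⟨z, rfl⟩ := proj_surj a
    obtain ⟨w, rfl⟩ := proj_surj b
    obtain ⟨v, rfl⟩ := proj_surj c
    show cdist _ _ ≤ cdist _ _ + cdist _ _
    rw [cdist_proj, cdist_proj, cdist_proj]
    rcases min_choice ‖z - w‖ ‖z + w‖ with h | h <;> rcases min_choice ‖w - v‖ ‖w + v‖ with h' | h' <;>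
      rw [h, h']
    · refine (min_le_left _ _).trans ?_
      calc ‖z - v‖ = ‖(z - w) + (w - v)‖ := by ring_nf
        _ ≤ _ := norm_add_le _ _
    · refine (min_le_right _ _).trans ?_
      calc ‖z + v‖ = ‖(z - w) + (w + v)‖ := by ring_nf
        _ ≤ _ := norm_add_le _ _
    · refine (min_le_right _ _).trans ?_
      calc ‖z + v‖ = ‖(z + w) - (w - v)‖ := by ring_nf
        _ ≤ _ := norm_sub_le _ _
    · refine (min_le_left _ _).trans ?_
      calc ‖z - v‖ = ‖(z + w) - (w + v)‖ := by ring_nf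
        _ ≤ _ := norm_sub_le _ _
  eq_of_dist_eq_zero := by
    intro a b h
    obtain ⟨z, rfl⟩ := proj_surj a
    obtain ⟨w, rfl⟩ := proj_surj b
    have h' : cdist (proj z) (proj w) = 0 := h
    rw [cdist_proj] at h'
    rcases min_choice ‖z - w‖ ‖z + w‖ with h1 | h1 <;> rw [h1] at h'
    · exact proj_eq.2 (Or.inl (sub_eq_zero.1 (norm_eq_zero.1 h')))
    · exact proj_eq.2 (Or.inr (eq_neg_of_add_eq_zero_left (norm_eq_zero.1 h')))

private lemma dist_proj (z w : ℂ) : dist (proj z) (proj w) = min ‖z - w‖ ‖z + w‖ := cdist_proj z w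

private lemma dist_proj_le (z w : ℂ) : dist (proj z) (proj w) ≤ ‖z - w‖ := by
  rw [dist_proj]; exact min_le_left _ _

private lemma proj_cont : Continuous proj := by
  have : LipschitzWith 1 proj := by
    apply LipschitzWith.of_dist_le_mul
    intro z w
    rw [NNReal.coe_one, one_mul, dist_eq_norm]
    exact dist_proj_le z w
  exact this.continuous

private instance : ProperSpace Cone := by
  constructor
  intro a r
  obtain ⟨z, rfl⟩ := proj_surj a
  have hK : IsCompact (proj '' (Metric.closedBall 0 (‖z‖ + r))) :=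
    (isCompact_closedBall 0 (‖z‖ + r)).image proj_cont
  apply hK.of_isClosed_subset Metric.isClosed_closedBall
  intro b hb
  obtain ⟨w, rfl⟩ := proj_surj b
  rw [Metric.mem_closedBall, dist_proj] at hb
  refine ⟨w, ?_, rfl⟩
  rw [mem_closedBall_zero_iff]
  rcases min_choice ‖w - z‖ ‖w + z‖ with h | h <;> rw [h] at hb
  · have := norm_add_le (w - z) z
    rw [sub_add_cancel] at this; linarith
  · have := norm_sub_le (w + z) z
    rw [add_sub_cancel_right] at this; linarith

/-- Stewart: a point realising the distances along a segment lies on it. -/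
private lemma stewart (x y m : ℂ) (l t : ℝ) (hl : 0 < l) (h1 : ‖x - y‖ = l) (h2 : ‖x - m‖ = t)
    (h3 : ‖m - y‖ = l - t) : m = x + (t / l : ℝ) * (y - x) := by
  have e : ‖m - (x + (t / l : ℝ) * (y - x))‖ ^ 2 = 0 := by
    have h1' := congrArg (· ^ 2) h1
    have h2' := congrArg (· ^ 2) h2
    have h3' := congrArg (· ^ 2) h3
    simp only [Complex.sq_norm, Complex.normSq_apply] at h1' h2' h3' ⊢
    obtain ⟨τ, hτ⟩ : ∃ τ, τ = t / l := ⟨_, rfl⟩
    have ht : t = τ * l := by rw [hτ]; field_simp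
    rw [← hτ]
    rw [ht] at h2' h3'
    simp at h1' h2' h3' ⊢
    linear_combination (1 - τ) * h2' + τ * h3' - τ * (1 - τ) * h1'
  have := norm_eq_zero.1 (pow_eq_zero_iff two_ne_zero |>.1 e)
  exact sub_eq_zero.1 this

/-- Every minimizing geodesic of the cone is the projection of a Euclidean segment. -/
private lemma lift {γ : ℝ → Cone} {l : ℝ} {x : ℂ} (hl : 0 < l) (h0 : γ 0 = proj x)
    (hγ : ∀ s ∈ Icc 0 l, ∀ t ∈ Icc 0 l, dist (γ s) (γ t) = |s - t|) :
    ∃ u : ℂ, ‖u‖ = 1 ∧ ∀ s ∈ Icc 0 l, γ s = proj (x + s * u) := by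
  have m0 : (0:ℝ) ∈ Icc 0 l := ⟨le_rfl, hl.le⟩
  have ml : l ∈ Icc 0 l := ⟨hl.le, le_rfl⟩
  obtain ⟨y0, hy0⟩ := proj_surj (γ l)
  -- choose the sign of y
  have hy : ∃ y, proj y = γ l ∧ ‖x - y‖ = l := by
    have h := hγ 0 m0 l ml
    rw [h0, ← hy0, dist_proj, zero_sub, abs_neg, abs_of_pos hl] at h
    rcases min_choice ‖x - y0‖ ‖x + y0‖ with h' | h' <;> rw [h'] at h
    · exact ⟨y0, hy0, h⟩
    · exact ⟨-y0, by rw [proj_neg, hy0], by rw [sub_neg_eq_add]; exact h⟩
  -- the dichotomy for every t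
  have dich : ∀ y, proj y = γ l → ‖x - y‖ = l → ∀ t ∈ Icc 0 l,
      γ t = proj (x + (t / l : ℝ) * (y - x)) ∨
      (‖x + y‖ = l ∧ γ t = proj (x + (t / l : ℝ) * (-y - x))) := by
    intro y hyl hxy t ht
    obtain ⟨m0', hm0'⟩ := proj_surj (γ t)
    have hm : ∃ m, proj m = γ t ∧ ‖x - m‖ = t := by
      have h := hγ 0 m0 t ht
      rw [h0, ← hm0', dist_proj, zero_sub, abs_neg, abs_of_nonneg ht.1] at h
      rcases min_choice ‖x - m0'‖ ‖x + m0'‖ with h' | h' <;> rw [h'] at h
      · exact ⟨m0', hm0', h⟩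
      · exact ⟨-m0', by rw [proj_neg, hm0'], by rw [sub_neg_eq_add]; exact h⟩
    obtain ⟨m, hm1, hm2⟩ := hm
    have h := hγ t ht l ml
    have hlt : |t - l| = l - t := by rw [abs_sub_comm, abs_of_nonneg (by linarith [ht.2])]
    rw [← hm1, ← hyl, dist_proj, hlt] at h
    rcases min_choice ‖m - y‖ ‖m + y‖ with h' | h' <;> rw [h'] at h
    · left
      rw [← hm1, stewart x y m l t hl hxy hm2 h]
    · right
      have e1 : ‖x + y‖ ≤ l := by
        calc ‖x + y‖ = ‖(x - m) + (m + y)‖ := by ring_nf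
          _ ≤ ‖x - m‖ + ‖m + y‖ := norm_add_le _ _
          _ = l := by rw [hm2, h]; ring
      have e2 : l ≤ ‖x + y‖ := by
        have h5 := hγ 0 m0 l ml
        rw [h0, ← hyl, dist_proj, zero_sub, abs_neg, abs_of_pos hl] at h5
        rw [← h5]; exact min_le_right _ _
      have e3 : ‖x - -y‖ = l := by rw [sub_neg_eq_add]; exact le_antisymm e1 e2
      refine ⟨le_antisymm e1 e2, ?_⟩
      rw [← hm1, stewart x (-y) m l t hl e3 hm2 (by rw [sub_neg_eq_add]; exact h)]
  -- choose y so that the midpoint is on the first branch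
  have hl2 : l / 2 ∈ Icc 0 l := ⟨by linarith, by linarith⟩
  have hy' : ∃ y, proj y = γ l ∧ ‖x - y‖ = l ∧ γ (l/2) = proj (x + ((l/2) / l : ℝ) * (y - x)) := by
    obtain ⟨y, hy1, hy2⟩ := hy
    rcases dich y hy1 hy2 (l/2) hl2 with h | ⟨h, h'⟩
    · exact ⟨y, hy1, hy2, h⟩
    · exact ⟨-y, by rw [proj_neg, hy1], by rw [sub_neg_eq_add]; exact h, h'⟩
  obtain ⟨y, hy1, hy2, hy3⟩ := hy'
  have all : ∀ t ∈ Icc 0 l, γ t = proj (x + (t / l : ℝ) * (y - x)) := by
    intro t ht
    rcases dich y hy1 hy2 t ht with h | ⟨hpl, h⟩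
    · exact h
    · rcases eq_or_lt_of_le ht.1 with h0t | h0t
      · rw [h, ← h0t]; simp
      rcases eq_or_lt_of_le ht.2 with hlt | hlt
      · rw [h, hlt, div_self hl.ne']
        rw [Complex.ofReal_one, one_mul, one_mul, add_sub_cancel, add_sub_cancel, proj_neg]
      -- now 0 < t < l
      obtain ⟨τ, hτ⟩ : ∃ τ, τ = t / l := ⟨_, rfl⟩
      have htl : t = τ * l := by rw [hτ]; field_simp
      have hτ0 : 0 < τ := by rw [hτ]; positivity
      have hτ1 : τ < 1 := by rw [hτ, div_lt_one hl]; exact hlt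
      by_cases hx : x = 0
      · rw [h, ← proj_neg, hx]; congr 1; ring
      by_cases hyz : y = 0
      · rw [h, hyz]; congr 1; ring
      exfalso
      have hd := hγ (l/2) hl2 t ht
      rw [hy3, h, ← hτ, dist_proj, div_div_cancel_left' hl.ne'] at hd
      have hxp : 0 < ‖x‖ ^ 2 := by positivity
      have hyp : 0 < ‖y‖ ^ 2 := by positivity
      have k1 := congrArg (· ^ 2) hy2
      have k2 := congrArg (· ^ 2) hpl
      have k3 : |l / 2 - t| ^ 2 = l ^ 2 * (1/2 - τ) ^ 2 := by rw [sq_abs, htl]; ring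
      rcases min_choice ‖x + ((2:ℝ)⁻¹ : ℝ) * (y - x) - (x + (τ : ℝ) * (-y - x))‖
        ‖x + ((2:ℝ)⁻¹ : ℝ) * (y - x) + (x + (τ : ℝ) * (-y - x))‖ with h' | h' <;>
        rw [h'] at hd
      · have k4 := congrArg (· ^ 2) hd
        simp only [Complex.sq_norm, Complex.normSq_apply] at k1 k2 k4 hxp hyp
        rw [k3] at k4
        simp at k1 k2 k4
        have : 2 * τ * (y.re * y.re + y.im * y.im) = 0 := by
          linear_combination k4 - (1/2 - τ)^2 * ((k1 + k2)/2) - 2*(τ^2 - 1/4) * ((k2 - k1)/4)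
        have : 0 < 2 * τ * (y.re * y.re + y.im * y.im) := by positivity
        linarith
      · have k4 := congrArg (· ^ 2) hd
        simp only [Complex.sq_norm, Complex.normSq_apply] at k1 k2 k4 hxp hyp
        rw [k3] at k4
        simp at k1 k2 k4
        have : 2 * (1 - τ) * (x.re * x.re + x.im * x.im) = 0 := by
          linear_combination k4 - (1/2 - τ)^2 * ((k1 + k2)/2) - 2*(3/2 - τ)*(1/2 - τ) * ((k2 - k1)/4)
        have : 0 < 2 * (1 - τ) * (x.re * x.re + x.im * x.im) := by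
          have : 0 < 1 - τ := by linarith
          positivity
        linarith
  refine ⟨(y - x) / l, ?_, ?_⟩
  · rw [norm_div, norm_sub_rev, hy2, Complex.norm_real, Real.norm_eq_abs, abs_of_pos hl, div_self hl.ne']
  · intro s hs
    rw [all s hs]
    congr 2
    push_cast
    ring

private lemma natural {x u : ℂ} (hu : ‖u‖ = 1) (s t : ℝ) :
    ‖(x + s * u) - (x + t * u)‖ = |s - t| := by
  have : (x + s * u) - (x + t * u) = ((s - t : ℝ) : ℂ) * u := by push_cast; ring
  rw [this, norm_mul, hu, Complex.norm_real, Real.norm_eq_abs, mul_one]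

/-- real inner product -/
private def ip (u v : ℂ) : ℝ := u.re * v.re + u.im * v.im

private lemma ip_neg_left (u v : ℂ) : ip (-u) v = - ip u v := by simp [ip]; ring

private lemma norm_comb_sub {u v : ℂ} (hu : ‖u‖ = 1) (hv : ‖v‖ = 1) (s t : ℝ) :
    ‖(s:ℂ) * u - t * v‖ ^ 2 = s ^ 2 + t ^ 2 - 2 * s * t * ip u v := by
  have h1 := congrArg (· ^ 2) hu
  have h2 := congrArg (· ^ 2) hv
  simp only [Complex.sq_norm, Complex.normSq_apply] at h1 h2 ⊢
  simp [ip] at h1 h2 ⊢
  linear_combination s^2 * h1 + t^2 * h2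

private lemma norm_comb_add {u v : ℂ} (hu : ‖u‖ = 1) (hv : ‖v‖ = 1) (s t : ℝ) :
    ‖(s:ℂ) * u + t * v‖ ^ 2 = s ^ 2 + t ^ 2 + 2 * s * t * ip u v := by
  have h := norm_comb_sub hu (v := -v) (by rwa [norm_neg]) s t
  rw [show (s:ℂ) * u - t * -v = s * u + t * v by ring] at h
  rw [h]; simp [ip]; ring

private lemma hinge_ne {γ η : ℝ → Cone} {p u v : ℂ} {l₁ l₂ : ℝ} (hp : p ≠ 0) (hl₁ : 0 < l₁)
    (hl₂ : 0 < l₂) (hu : ‖u‖ = 1) (hv : ‖v‖ = 1) (hγ : ∀ s ∈ Icc 0 l₁, γ s = proj (p + s * u))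
    (hη : ∀ s ∈ Icc 0 l₂, η s = proj (p + s * v)) : HasAngle γ η (Real.arccos (ip u v)) := by
  have hpn : 0 < ‖p‖ := norm_pos_iff.2 hp
  apply Tendsto.congr' _ tendsto_const_nhds
  obtain ⟨r, hr, hr1, hr2, hr3⟩ : ∃ r > 0, r ≤ l₁ ∧ r ≤ l₂ ∧ r ≤ ‖p‖ / 2 :=
    ⟨min l₁ (min l₂ (‖p‖/2)), by positivity, min_le_left _ _,
      (min_le_right _ _).trans (min_le_left _ _), (min_le_right _ _).trans (min_le_right _ _)⟩
  have hev : ∀ᶠ s in 𝓝[>] (0:ℝ), s ∈ Ioo 0 r := Ioo_mem_nhdsGT hr
  filter_upwards [hev.prod_mk hev] with st hst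
  obtain ⟨hs, ht⟩ := hst
  obtain ⟨s, t⟩ := st
  simp only at hs ht ⊢
  rw [hγ s ⟨hs.1.le, hs.2.le.trans hr1⟩, hη t ⟨ht.1.le, ht.2.le.trans hr2⟩, dist_proj]
  have e1 : p + s * u - (p + t * v) = s * u - t * v := by ring
  have n1 : ‖(s:ℂ) * u‖ = s := by
    rw [norm_mul, hu, Complex.norm_real, Real.norm_eq_abs, abs_of_pos hs.1, mul_one]
  have n2 : ‖(t:ℂ) * v‖ = t := by
    rw [norm_mul, hv, Complex.norm_real, Real.norm_eq_abs, abs_of_pos ht.1, mul_one]
  have hle : ‖p + s * u - (p + t * v)‖ ≤ ‖p + s * u + (p + t * v)‖ := by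
    rw [e1]
    have a1 : ‖(s:ℂ) * u - t * v‖ ≤ s + t := by
      calc _ ≤ ‖(s:ℂ) * u‖ + ‖(t:ℂ) * v‖ := norm_sub_le _ _
        _ = _ := by rw [n1, n2]
    have a2 : 2 * ‖p‖ ≤ ‖p + s * u + (p + t * v)‖ + (s + t) := by
      calc 2 * ‖p‖ = ‖(2:ℂ) * p‖ := by rw [norm_mul]; simp
        _ = ‖(p + s * u + (p + t * v)) - (s * u + t * v)‖ := by ring_nf
        _ ≤ ‖p + s * u + (p + t * v)‖ + ‖(s:ℂ) * u + t * v‖ := norm_sub_le _ _
        _ ≤ ‖p + s * u + (p + t * v)‖ + (‖(s:ℂ) * u‖ + ‖(t:ℂ) * v‖) := by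
            gcongr; exact norm_add_le _ _
        _ = _ := by rw [n1, n2]
    linarith [hs.2, ht.2]
  rw [min_eq_left hle, e1]
  unfold cmpAngle
  congr 1
  rw [norm_comb_sub hu hv]
  have := hs.1.ne'
  have := ht.1.ne'
  field_simp
  ring

private lemma min_sq_zero {u v : ℂ} (hu : ‖u‖ = 1) (hv : ‖v‖ = 1) {s t : ℝ} (hs : 0 < s)
    (ht : 0 < t) : (min ‖(s:ℂ) * u - t * v‖ ‖(s:ℂ) * u + t * v‖) ^ 2
      = s ^ 2 + t ^ 2 - 2 * s * t * |ip u v| := by
  have hst : 0 < s * t := mul_pos hs ht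
  rcases le_total 0 (ip u v) with h | h
  · have hle : ‖(s:ℂ) * u - t * v‖ ≤ ‖(s:ℂ) * u + t * v‖ := by
      apply (pow_le_pow_iff_left₀ (norm_nonneg _) (norm_nonneg _) two_ne_zero).1
      rw [norm_comb_sub hu hv, norm_comb_add hu hv]
      have := mul_nonneg hst.le h
      linarith
    rw [min_eq_left hle, norm_comb_sub hu hv, abs_of_nonneg h]
  · have hle : ‖(s:ℂ) * u + t * v‖ ≤ ‖(s:ℂ) * u - t * v‖ := by
      apply (pow_le_pow_iff_left₀ (norm_nonneg _) (norm_nonneg _) two_ne_zero).1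
      rw [norm_comb_sub hu hv, norm_comb_add hu hv]
      have := mul_nonneg hst.le (neg_nonneg.2 h)
      linarith
    rw [min_eq_right hle, norm_comb_add hu hv, abs_of_nonpos h]; ring

private lemma hinge_zero {γ η : ℝ → Cone} {u v : ℂ} {l₁ l₂ : ℝ} (hl₁ : 0 < l₁)
    (hl₂ : 0 < l₂) (hu : ‖u‖ = 1) (hv : ‖v‖ = 1) (hγ : ∀ s ∈ Icc 0 l₁, γ s = proj (s * u))
    (hη : ∀ s ∈ Icc 0 l₂, η s = proj (s * v)) : HasAngle γ η (Real.arccos |ip u v|) := by
  apply Tendsto.congr' _ tendsto_const_nhds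
  obtain ⟨r, hr, hr1, hr2⟩ : ∃ r > 0, r ≤ l₁ ∧ r ≤ l₂ :=
    ⟨min l₁ l₂, by positivity, min_le_left _ _, min_le_right _ _⟩
  have hev : ∀ᶠ s in 𝓝[>] (0:ℝ), s ∈ Ioo 0 r := Ioo_mem_nhdsGT hr
  filter_upwards [hev.prod_mk hev] with st hst
  obtain ⟨hs, ht⟩ := hst
  obtain ⟨s, t⟩ := st
  simp only at hs ht ⊢
  rw [hγ s ⟨hs.1.le, hs.2.le.trans hr1⟩, hη t ⟨ht.1.le, ht.2.le.trans hr2⟩, dist_proj]
  unfold cmpAngle
  congr 1
  rw [min_sq_zero hu hv hs.1 ht.1]
  have := hs.1.ne'
  have := ht.1.ne'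
  field_simp
  ring

private lemma angle_unique {γ η : ℝ → Cone} {θ θ' : ℝ} (h : HasAngle γ η θ)
    (h' : HasAngle γ η θ') : θ = θ' := tendsto_nhds_unique h h'

private lemma isGeod_lift {γ : ℝ → Cone} {l : ℝ} {p q : Cone} (hl : 0 < l) (h : IsGeod γ l p q)
    {x : ℂ} (hx : proj x = p) : ∃ u : ℂ, ‖u‖ = 1 ∧ ∀ s ∈ Icc 0 l, γ s = proj (x + s * u) :=
  lift hl (h.1.trans hx.symm) h.2.2

private lemma cone_cbb : IsCBB0 Cone where
  complete := inferInstance
  geodesic := by
    intro p q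
    obtain ⟨x, rfl⟩ := proj_surj p
    have hy : ∃ y, proj y = q ∧ dist (proj x) q = ‖x - y‖ := by
      obtain ⟨y, rfl⟩ := proj_surj q
      rcases min_choice ‖x - y‖ ‖x + y‖ with h | h
      · exact ⟨y, rfl, by rw [dist_proj, h]⟩
      · exact ⟨-y, proj_neg y, by rw [dist_proj, h, sub_neg_eq_add]⟩
    obtain ⟨y, rfl, hd⟩ := hy
    rcases eq_or_lt_of_le (dist_nonneg : 0 ≤ dist (proj x) (proj y)) with h0 | h0
    · have hxy : x = y := by
        rw [hd] at h0; exact sub_eq_zero.1 (norm_eq_zero.1 h0.symm)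
      rw [← h0, hxy]
      refine ⟨fun _ => proj y, rfl, rfl, ?_⟩
      intro s hs t ht
      have hs0 : s = 0 := le_antisymm hs.2 hs.1
      have ht0 : t = 0 := le_antisymm ht.2 ht.1
      rw [hs0, ht0]; simp
    · obtain ⟨l, hl⟩ : ∃ l, l = dist (proj x) (proj y) := ⟨_, rfl⟩
      rw [← hl] at h0 hd ⊢
      obtain ⟨u, hu⟩ : ∃ u : ℂ, u = (y - x) / l := ⟨_, rfl⟩
      have hlC : (l : ℂ) ≠ 0 := by exact_mod_cast h0.ne'
      have hun : ‖u‖ = 1 := by
        rw [hu, norm_div, norm_sub_rev, ← hd, Complex.norm_real, Real.norm_eq_abs, abs_of_pos h0,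
          div_self h0.ne']
      have hend : x + l * u = y := by rw [hu]; field_simp; ring
      refine ⟨fun s => proj (x + s * u), by simp, by simp only; rw [hend], ?_⟩
      have hle : ∀ s t : ℝ, dist (proj (x + s * u)) (proj (x + t * u)) ≤ |s - t| := by
        intro s t
        refine (dist_proj_le _ _).trans ?_
        rw [natural hun]
      have key : ∀ s ∈ Icc 0 l, ∀ t ∈ Icc 0 l, s ≤ t →
          dist (proj (x + s * u)) (proj (x + t * u)) = |s - t| := by
        intro s hs t ht hst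
        apply le_antisymm (hle s t)
        have h1 := hle 0 s
        have h2 := hle t l
        have h3 := dist_triangle4 (proj (x + (0:ℝ) * u)) (proj (x + s * u)) (proj (x + t * u))
          (proj (x + l * u))
        have h4 : dist (proj (x + (0:ℝ) * u)) (proj (x + l * u)) = l := by
          rw [hend]; simp; exact hl.symm
        rw [h4] at h3
        rw [zero_sub, abs_neg, abs_of_nonneg hs.1] at h1
        rw [abs_sub_comm, abs_of_nonneg (by linarith [ht.2])] at h2
        rw [abs_sub_comm, abs_of_nonneg (by linarith)]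
        linarith
      intro s hs t ht
      rcases le_total s t with h | h
      · exact key s hs t ht h
      · rw [dist_comm, abs_sub_comm]; exact key t ht s hs h
  angle := by
    intro p x y hpx hpy γ η hγ hη
    obtain ⟨z, rfl⟩ := proj_surj p
    have l1 : 0 < dist (proj z) x := dist_pos.2 hpx
    have l2 : 0 < dist (proj z) y := dist_pos.2 hpy
    obtain ⟨u, hu, hγu⟩ := isGeod_lift l1 hγ rfl
    obtain ⟨v, hv, hηv⟩ := isGeod_lift l2 hη rfl
    obtain ⟨a, ha⟩ : ∃ a, a = dist (proj z) x := ⟨_, rfl⟩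
    obtain ⟨b, hb⟩ : ∃ b, b = dist (proj z) y := ⟨_, rfl⟩
    rw [← ha] at l1 hγu hγ ⊢
    rw [← hb] at l2 hηv hη ⊢
    have hx : x = proj (z + a * u) := by
      rw [← hγ.2.1]; exact hγu a ⟨l1.le, le_rfl⟩
    have hy : y = proj (z + b * v) := by
      rw [← hη.2.1]; exact hηv b ⟨l2.le, le_rfl⟩
    by_cases hz : z = 0
    · refine ⟨Real.arccos |ip u v|, hinge_zero l1 l2 hu hv ?_ ?_, ?_⟩
      · intro s hs; rw [hγu s hs, hz, zero_add]
      · intro s hs; rw [hηv s hs, hz, zero_add]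
      · unfold cmpAngle
        apply Real.antitone_arccos
        rw [hx, hy, hz, zero_add, zero_add, dist_proj, min_sq_zero hu hv l1 l2]
        rw [le_div_iff₀ (by positivity)]
        linarith
    · refine ⟨Real.arccos (ip u v), hinge_ne hz l1 l2 hu hv hγu hηv, ?_⟩
      unfold cmpAngle
      apply Real.antitone_arccos
      rw [le_div_iff₀ (by positivity)]
      have h1 : dist x y ^ 2 ≤ ‖(a:ℂ) * u - b * v‖ ^ 2 := by
        gcongr
        rw [hx, hy]
        refine (dist_proj_le _ _).trans (le_of_eq ?_)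
        congr 1; ring
      rw [norm_comb_sub hu hv] at h1
      linarith
  adjacent := by
    intro γ l x y hγ t ht0 htl z η hz hη θ₁ θ₂ h1 h2
    obtain ⟨x', rfl⟩ := proj_surj x
    have hl : 0 < l := ht0.trans htl
    obtain ⟨u, hu, hγu⟩ := isGeod_lift hl hγ rfl
    have htm : t ∈ Icc 0 l := ⟨ht0.le, htl.le⟩
    have hp : x' + t * u ≠ 0 := by
      intro h0
      have e := hγ.2.2 0 ⟨le_rfl, hl.le⟩ l ⟨hl.le, le_rfl⟩
      rw [hγu 0 ⟨le_rfl, hl.le⟩, hγu l ⟨hl.le, le_rfl⟩, dist_proj, zero_sub, abs_neg,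
        abs_of_pos hl] at e
      have hx' : x' = -(t * u) := eq_neg_of_add_eq_zero_left h0
      have e2 : ‖x' + (0:ℝ) * u + (x' + l * u)‖ = |l - 2 * t| := by
        have : x' + (0:ℝ) * u + (x' + l * u) = ((l - 2 * t : ℝ) : ℂ) * u := by
          rw [hx']; push_cast; ring
        rw [this, norm_mul, hu, Complex.norm_real, Real.norm_eq_abs, mul_one]
      have e3 : l ≤ |l - 2 * t| := by
        calc l = min ‖x' + ((0:ℝ):ℂ) * u - (x' + l * u)‖ ‖x' + ((0:ℝ):ℂ) * u + (x' + l * u)‖ := e.symm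
          _ ≤ _ := min_le_right _ _
          _ = _ := e2
      have e4 : |l - 2 * t| < l := abs_lt.2 ⟨by linarith, by linarith⟩
      linarith
    have hd : 0 < dist (γ t) z := dist_pos.2 (Ne.symm hz)
    obtain ⟨v, hv, hηv⟩ := isGeod_lift hd hη (hγu t htm).symm
    have a1 : HasAngle (fun s => γ (t - s)) η (Real.arccos (ip (-u) v)) := by
      apply hinge_ne hp ht0 hd (by rwa [norm_neg]) hv _ hηv
      intro s hs
      rw [hγu (t - s) ⟨by linarith [hs.2], by linarith [hs.1]⟩]
      congr 1; push_cast; ring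
    have a2 : HasAngle (fun s => γ (t + s)) η (Real.arccos (ip u v)) := by
      apply hinge_ne hp (show 0 < l - t by linarith) hd hu hv _ hηv
      intro s hs
      rw [hγu (t + s) ⟨by linarith [hs.1], by linarith [hs.2]⟩]
      congr 1; push_cast; ring
    rw [angle_unique h1 a1, angle_unique h2 a2, ip_neg_left, Real.arccos_neg]
    ring

/-! ### The cone is homeomorphic to the plane -/

private def toC (w : Cone) : ℂ := w

private lemma toC_proj (z : ℂ) : toC (proj z) = z ^ 2 := rfl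

private lemma toC_cont : Continuous toC := by
  rw [continuous_iff_continuousAt]
  intro a
  obtain ⟨z, rfl⟩ := proj_surj a
  rw [Metric.continuousAt_iff]
  intro ε hε
  obtain ⟨K, hK⟩ : ∃ K, K = 2 * ‖z‖ + 1 := ⟨_, rfl⟩
  have hK0 : 0 < K := by rw [hK]; positivity
  refine ⟨min 1 (ε / K), by positivity, ?_⟩
  intro b hb
  obtain ⟨w0, rfl⟩ := proj_surj b
  have hw : ∃ w, proj w = proj w0 ∧ dist (proj w0) (proj z) = ‖w - z‖ := by
    rcases min_choice ‖w0 - z‖ ‖w0 + z‖ with h | h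
    · exact ⟨w0, rfl, by rw [dist_proj, h]⟩
    · refine ⟨-w0, proj_neg w0, ?_⟩
      rw [dist_proj, h, show -w0 - z = -(w0 + z) by ring, norm_neg]
  obtain ⟨w, hw1, hw2⟩ := hw
  rw [hw2] at hb
  rw [← hw1, toC_proj, toC_proj, dist_eq_norm]
  have e : w ^ 2 - z ^ 2 = (w - z) * (w + z) := by ring
  have h1 : ‖w - z‖ < 1 := hb.trans_le (min_le_left _ _)
  have h2 : ‖w - z‖ < ε / K := hb.trans_le (min_le_right _ _)
  have h3 : ‖w + z‖ ≤ K := by
    calc ‖w + z‖ = ‖(w - z) + 2 * z‖ := by ring_nf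
      _ ≤ ‖w - z‖ + ‖(2:ℂ) * z‖ := norm_add_le _ _
      _ ≤ _ := by rw [norm_mul, hK]; simp; linarith
  rw [e, norm_mul]
  calc ‖w - z‖ * ‖w + z‖ ≤ ‖w - z‖ * K := by gcongr
    _ < ε / K * K := by gcongr
    _ = ε := by field_simp

private def fromC (w : ℂ) : Cone := w

private lemma fromC_cont : Continuous fromC := by
  rw [Metric.continuous_iff]
  intro w ε hε
  refine ⟨ε ^ 2, by positivity, ?_⟩
  intro w' hw'
  obtain ⟨z, hz⟩ := proj_surj (fromC w)
  obtain ⟨z', hz'⟩ := proj_surj (fromC w')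
  rw [← hz, ← hz', dist_proj]
  have e : w' - w = (z' - z) * (z' + z) := by
    have h1 : (z ^ 2 : ℂ) = w := hz
    have h2 : (z' ^ 2 : ℂ) = w' := hz'
    rw [← h1, ← h2]; ring
  rw [dist_eq_norm, e, norm_mul] at hw'
  have h1 : (min ‖z' - z‖ ‖z' + z‖) ^ 2 ≤ ‖z' - z‖ * ‖z' + z‖ := by
    rw [sq]
    gcongr
    · exact min_le_left _ _
    · exact min_le_right _ _
  exact lt_of_pow_lt_pow_left₀ 2 hε.le (h1.trans_lt hw')

private def homeo : Cone ≃ₜ ℂ where
  toFun := toC
  invFun := fromC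
  left_inv := fun _ => rfl
  right_inv := fun _ => rfl
  continuous_toFun := toC_cont
  continuous_invFun := fromC_cont

private def Disk : Set Cone := homeo ⁻¹' (Metric.closedBall 0 1)

private lemma mem_disk (z : ℂ) : proj z ∈ Disk ↔ ‖z‖ ≤ 1 := by
  show toC (proj z) ∈ Metric.closedBall (0:ℂ) 1 ↔ _
  rw [toC_proj, mem_closedBall_zero_iff, norm_pow]
  constructor
  · intro h
    by_contra hc
    push Not at hc
    nlinarith
  · intro h
    exact pow_le_one₀ (norm_nonneg _) h

private lemma frontier_disk : frontier Disk = homeo ⁻¹' (Metric.sphere 0 1) := by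
  unfold Disk
  rw [← homeo.preimage_frontier, frontier_closedBall _ one_ne_zero]

private lemma mem_frontier_disk (z : ℂ) : proj z ∈ frontier Disk ↔ ‖z‖ = 1 := by
  rw [frontier_disk]
  show toC (proj z) ∈ Metric.sphere (0:ℂ) 1 ↔ _
  rw [toC_proj, mem_sphere_zero_iff_norm, norm_pow]
  exact pow_eq_one_iff_of_nonneg (norm_nonneg _) two_ne_zero

private lemma interior_disk : interior Disk = homeo ⁻¹' (Metric.ball 0 1) := by
  unfold Disk
  rw [← homeo.preimage_interior, interior_closedBall _ one_ne_zero]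

private noncomputable def ee (t : ℝ) : ℂ := Complex.exp (t * Complex.I)

private lemma ee_norm (t : ℝ) : ‖ee t‖ = 1 := Complex.norm_exp_ofReal_mul_I t

private noncomputable def bc (t : ℝ) : Cone := proj (ee t)

private lemma ee_re (t : ℝ) : (ee t).re = Real.cos t := Complex.exp_ofReal_mul_I_re t

private lemma ee_im (t : ℝ) : (ee t).im = Real.sin t := Complex.exp_ofReal_mul_I_im t

private lemma ee_cont : Continuous ee := by unfold ee; fun_prop

private lemma bc_cont : Continuous bc := proj_cont.comp ee_cont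

private lemma ee_sub (s t : ℝ) : ‖ee s - ee t‖ ^ 2 = 2 - 2 * Real.cos (s - t) := by
  rw [Complex.sq_norm, Complex.normSq_apply, Real.cos_sub]
  simp [ee, Complex.exp_re, Complex.exp_im]
  nlinarith [Real.sin_sq_add_cos_sq s, Real.sin_sq_add_cos_sq t]

private lemma ee_add (s t : ℝ) : ‖ee s + ee t‖ ^ 2 = 2 + 2 * Real.cos (s - t) := by
  rw [Complex.sq_norm, Complex.normSq_apply, Real.cos_sub]
  simp [ee, Complex.exp_re, Complex.exp_im]
  nlinarith [Real.sin_sq_add_cos_sq s, Real.sin_sq_add_cos_sq t]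

private lemma ee_sub' (s t : ℝ) : ‖ee s - ee t‖ = 2 * |Real.sin ((s - t) / 2)| := by
  have h : ‖ee s - ee t‖ ^ 2 = (2 * |Real.sin ((s - t) / 2)|) ^ 2 := by
    rw [ee_sub, mul_pow, sq_abs, Real.sin_sq_eq_half_sub]
    ring_nf
  exact (pow_left_inj₀ (norm_nonneg _) (by positivity) two_ne_zero).1 h

private lemma bc_dist_le (s t : ℝ) : dist (bc s) (bc t) ≤ |s - t| := by
  refine (dist_proj_le _ _).trans ?_
  rw [ee_sub']
  have := Real.abs_sin_le_abs (x := (s - t)/2)
  rw [abs_div, abs_of_pos (by norm_num : (0:ℝ) < 2)] at this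
  linarith

private lemma bc_dist_eq (s t : ℝ) (h : |s - t| ≤ 1) : dist (bc s) (bc t) = 2 * |Real.sin ((s - t) / 2)|
    ∧ ‖ee s - ee t‖ < ‖ee s + ee t‖ := by
  have hcos : 0 < Real.cos (s - t) := by
    apply Real.cos_pos_of_mem_Ioo
    have := abs_le.1 h
    have := Real.pi_gt_three
    constructor <;> linarith
  have h1 : ‖ee s - ee t‖ < ‖ee s + ee t‖ := by
    apply lt_of_pow_lt_pow_left₀ 2 (norm_nonneg _)
    rw [ee_sub, ee_add]; linarith
  refine ⟨?_, h1⟩
  show dist (proj _) (proj _) = _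
  rw [dist_proj, min_eq_left h1.le, ee_sub']

private lemma bc_periodic (t : ℝ) : bc (t + Real.pi) = bc t := by
  unfold bc
  rw [proj_eq]; right
  unfold ee
  push_cast
  rw [add_mul, Complex.exp_add, Complex.exp_pi_mul_I]; ring

private lemma bc_inj : InjOn bc (Ico 0 Real.pi) := by
  intro s hs t ht h
  by_contra hne
  have hpi := Real.pi_pos
  have key : ∀ a b : ℝ, 0 ≤ a → a < b → b < Real.pi → bc a ≠ bc b := by
    intro a b ha hab hb hE
    rcases proj_eq.1 hE with h1 | h1
    · have h2 : ‖ee b - ee a‖ = 0 := by rw [h1]; simp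
      rw [ee_sub'] at h2
      have : 0 < Real.sin ((b - a)/2) := Real.sin_pos_of_pos_of_lt_pi (by linarith) (by linarith)
      rw [abs_of_pos this] at h2; linarith
    · have h2 : ‖ee b + ee a‖ ^ 2 = 0 := by rw [h1]; simp
      rw [ee_add] at h2
      have h3 : Real.cos (b - a) = -1 := by linarith
      have h4 : Real.cos Real.pi < Real.cos (b - a) :=
        Real.cos_lt_cos_of_nonneg_of_le_pi (by linarith) le_rfl (by linarith)
      rw [Real.cos_pi] at h4; linarith
  rcases lt_or_gt_of_ne hne with h1 | h1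
  · exact key s t hs.1 h1 ht.2 h
  · exact key t s ht.1 h1 hs.2 h.symm

private lemma bc_range : range bc = frontier Disk := by
  ext a
  constructor
  · rintro ⟨t, rfl⟩
    exact (mem_frontier_disk _).2 (ee_norm t)
  · intro ha
    obtain ⟨z, rfl⟩ := proj_surj a
    have hz := (mem_frontier_disk z).1 ha
    refine ⟨Complex.arg z, ?_⟩
    show proj _ = proj z
    congr 1
    have := Complex.norm_mul_exp_arg_mul_I z
    rw [hz] at this
    simpa [ee] using this

private lemma bc_arclength (a b : ℝ) (hab : a ≤ b) :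
    eVariationOn bc (Icc a b) = ENNReal.ofReal (b - a) := by
  apply le_antisymm
  · have h1 : LipschitzOnWith 1 bc (Icc a b) := by
      apply LipschitzOnWith.of_dist_le_mul
      intro s _ t _
      rw [NNReal.coe_one, one_mul, Real.dist_eq]
      exact bc_dist_le s t
    have h2 := h1.comp_eVariationOn_le (f := bc) (g := (id : ℝ → ℝ)) (s := Icc a b) (fun x hx => hx)
    have h3 : eVariationOn (id : ℝ → ℝ) (Icc a b) = ENNReal.ofReal (b - a) := by
      have := (monotoneOn_id (s := Icc a b) (α := ℝ)).eVariationOn_eq (left_mem_Icc.2 hab)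
        (right_mem_Icc.2 hab)
      rw [inter_self] at this
      exact this
    calc eVariationOn bc (Icc a b) = eVariationOn (bc ∘ id) (Icc a b) := rfl
      _ ≤ (1 : NNReal) * eVariationOn (id : ℝ → ℝ) (Icc a b) := h2
      _ ≤ _ := by rw [ENNReal.coe_one, one_mul, h3]
  · rcases eq_or_lt_of_le hab with h0 | h0
    · rw [h0]; simp
    have hba : 0 < b - a := by linarith
    have hlim : Tendsto (fun n : ℕ => (b - a) * (1 - ((b - a) * ((n:ℝ) + 1)⁻¹) ^ 2 / 24)) atTop
        (𝓝 ((b - a) * (1 - ((b - a) * 0) ^ 2 / 24))) := by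
      have h1 : Tendsto (fun n : ℕ => ((n:ℝ) + 1)⁻¹) atTop (𝓝 0) := by
        simpa using tendsto_one_div_add_atTop_nhds_zero_nat (𝕜 := ℝ)
      exact (((h1.const_mul (b - a)).pow 2).div_const 24).const_sub 1 |>.const_mul (b - a)
    have hlim2 : Tendsto (fun n : ℕ => ENNReal.ofReal
        ((b - a) * (1 - ((b - a) * ((n:ℝ) + 1)⁻¹) ^ 2 / 24))) atTop (𝓝 (ENNReal.ofReal (b - a))) := by
      have e0 : (b - a) * (1 - ((b - a) * 0) ^ 2 / 24) = b - a := by ring
      rw [e0] at hlim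
      exact (ENNReal.continuous_ofReal.tendsto _).comp hlim
    apply le_of_tendsto hlim2
    obtain ⟨m, hm⟩ := exists_nat_gt (b - a)
    filter_upwards [eventually_ge_atTop m] with n hn
    obtain ⟨h, hh⟩ : ∃ h, h = (b - a) * ((n:ℝ) + 1)⁻¹ := ⟨_, rfl⟩
    have hn1 : (0:ℝ) < n + 1 := by positivity
    have hh0 : 0 < h := by rw [hh]; positivity
    have hnh : ((n:ℝ) + 1) * h = b - a := by rw [hh]; field_simp
    have hh1 : h ≤ 1 := by
      have : (m:ℝ) ≤ n := by exact_mod_cast hn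
      by_contra hc; push Not at hc
      nlinarith
    rw [← hh]
    have hu : Monotone (fun i : ℕ => a + (i:ℝ) * h) := by
      intro i j hij
      have : (i:ℝ) ≤ j := by exact_mod_cast hij
      simp only
      gcongr
    have hs := eVariationOn.sum_le_of_monotoneOn_Iic (f := bc) (s := Icc a b) (n := n + 1)
      (u := fun i : ℕ => a + (i:ℝ) * h) (hu.monotoneOn _) (by
        intro i hi
        have hi' : (i:ℝ) ≤ n + 1 := by exact_mod_cast hi
        constructor
        · have : 0 ≤ (i:ℝ) * h := by positivity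
          linarith
        · have : (i:ℝ) * h ≤ ((n:ℝ) + 1) * h := by gcongr
          linarith)
    refine le_trans ?_ hs
    have hterm : ∀ i ∈ Finset.range (n + 1), ENNReal.ofReal (h - h ^ 3 / 24) ≤
        edist (bc (a + ((i + 1 : ℕ):ℝ) * h)) (bc (a + (i:ℝ) * h)) := by
      intro i _
      rw [edist_dist]
      apply ENNReal.ofReal_le_ofReal
      have e : a + ((i + 1 : ℕ):ℝ) * h - (a + (i:ℝ) * h) = h := by push_cast; ring
      rw [(bc_dist_eq _ _ (by rw [e, abs_of_pos hh0]; exact hh1)).1, e]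
      have hsin := Real.sin_gt_sub_cube (x := h / 2) (by positivity)
      have h5 : 0 < Real.sin (h / 2) :=
        Real.sin_pos_of_pos_of_lt_pi (by positivity) (by linarith [Real.pi_gt_three])
      rw [abs_of_pos h5]
      nlinarith
    refine le_trans ?_ (Finset.sum_le_sum hterm)
    rw [Finset.sum_const, Finset.card_range, nsmul_eq_mul]
    rw [← ENNReal.ofReal_natCast, ← ENNReal.ofReal_mul (by positivity)]
    apply ENNReal.ofReal_le_ofReal
    push_cast
    apply le_of_eq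
    have : ((n:ℝ) + 1) * (h - h ^ 3 / 24) = (((n:ℝ) + 1) * h) * (1 - h ^ 2 / 24) := by ring
    rw [this, hnh]

private lemma disk_interior : Nonempty (interior Disk ≃ₜ Metric.ball (0 : ℂ) 1) := by
  rw [interior_disk]
  exact ⟨homeo.sets rfl⟩

private lemma is_disk : IsDisk Disk bc Real.pi where
  closed := Metric.isClosed_closedBall.preimage homeo.continuous
  interior_disk := disk_interior
  pos := Real.pi_pos
  cont := bc_cont
  periodic := bc_periodic
  inj := bc_inj
  boundary := bc_range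
  arclength := bc_arclength

/-! ### The swerve of the boundary -/

/-- direction of the chord -/
private noncomputable def dir (s t : ℝ) : ℂ := Complex.I * ee ((s + t) / 2)

private lemma dir_norm (s t : ℝ) : ‖dir s t‖ = 1 := by
  unfold dir; rw [norm_mul, ee_norm, Complex.norm_I, one_mul]

private lemma ee_add_chord (s t : ℝ) : ee t = ee s + ((2 * Real.sin ((t - s) / 2) : ℝ) : ℂ) * dir s t := by
  have h1 : t = (s + t) / 2 + (t - s) / 2 := by ring
  have h2 : s = (s + t) / 2 - (t - s) / 2 := by ring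
  obtain ⟨p, hp⟩ : ∃ p, p = (s + t) / 2 := ⟨_, rfl⟩
  obtain ⟨q, hq⟩ : ∃ q, q = (t - s) / 2 := ⟨_, rfl⟩
  rw [← hp, ← hq] at h1 h2
  unfold dir
  rw [← hp, ← hq, h1, h2]
  apply Complex.ext
  · rw [Complex.add_re, Complex.re_ofReal_mul, Complex.I_mul_re, ee_re, ee_re, ee_im,
      Real.cos_add, Real.cos_sub]; ring
  · rw [Complex.add_im, Complex.im_ofReal_mul, Complex.I_mul_im, ee_im, ee_im, ee_re,
      Real.sin_add, Real.sin_sub]; ring

private lemma chord_geod {s t : ℝ} (hst : s < t) (h1 : t - s ≤ 1) {g : ℝ → Cone}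
    (hg : IsGeod g (dist (bc s) (bc t)) (bc s) (bc t)) :
    dist (bc s) (bc t) = 2 * Real.sin ((t - s) / 2) ∧ 0 < dist (bc s) (bc t) ∧
    ∀ r ∈ Icc 0 (dist (bc s) (bc t)), g r = proj (ee s + r * dir s t) := by
  have habs : |s - t| ≤ 1 := by rw [abs_sub_comm, abs_of_pos (by linarith)]; exact h1
  obtain ⟨hd, hlt⟩ := bc_dist_eq s t habs
  have hsin : 0 < Real.sin ((t - s) / 2) :=
    Real.sin_pos_of_pos_of_lt_pi (by linarith) (by linarith [Real.pi_gt_three])
  have hd' : dist (bc s) (bc t) = 2 * Real.sin ((t - s) / 2) := by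
    rw [hd, show (s - t) / 2 = -((t - s) / 2) by ring, Real.sin_neg, abs_neg, abs_of_pos hsin]
  have hd0 : 0 < dist (bc s) (bc t) := by rw [hd']; linarith
  refine ⟨hd', hd0, ?_⟩
  obtain ⟨u, hu, hgu⟩ := isGeod_lift hd0 hg (x := ee s) rfl
  obtain ⟨l, hl⟩ : ∃ l, l = dist (bc s) (bc t) := ⟨_, rfl⟩
  rw [← hl] at hd' hd0 hgu hg ⊢
  have hend : proj (ee s + l * u) = proj (ee t) := by
    rw [← hgu l ⟨hd0.le, le_rfl⟩, hg.2.1]; rfl
  have hu2 : u = dir s t := by
    rcases proj_eq.1 hend with h | h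
    · have h3 := ee_add_chord s t
      rw [← hd'] at h3
      rw [h3] at h
      have h4 := add_left_cancel h
      have hlC : (l : ℂ) ≠ 0 := by exact_mod_cast hd0.ne'
      exact mul_left_cancel₀ hlC h4
    · exfalso
      have h5 : ‖ee s + ee t‖ = l := by
        have : ee s + ee t = -((l : ℂ) * u) := by linear_combination h
        rw [this, norm_neg, norm_mul, hu, Complex.norm_real, Real.norm_eq_abs, abs_of_pos hd0, mul_one]
      have h6 : ‖ee s - ee t‖ = l := by
        rw [ee_sub', hd', show (s - t) / 2 = -((t - s) / 2) by ring, Real.sin_neg, abs_neg,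
          abs_of_pos hsin]
      rw [h5, h6] at hlt
      exact lt_irrefl _ hlt
  intro r hr
  rw [hgu r hr, hu2]

private lemma dir_ip (r s t : ℝ) : ip (-(dir r s)) (dir s t) = -Real.cos ((t - r) / 2) := by
  rw [ip_neg_left]
  congr 1
  have : (t - r) / 2 = (s + t) / 2 - (r + s) / 2 := by ring
  rw [this, Real.cos_sub]
  simp [ip, dir, ee, Complex.exp_re, Complex.exp_im]
  ring

private lemma bc_swerve (a b : ℝ) : HasSwerve bc a b (b - a) := by
  intro ε hε
  refine ⟨min 1 (ε / 2), by positivity, ?_⟩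
  intro N t g α hB hmesh
  have hm1 : ∀ i ≤ N, t (i + 1) - t i ≤ 1 := fun i hi =>
    (hmesh i hi).le.trans (min_le_left _ _)
  have hm2 : ∀ i ≤ N, t (i + 1) - t i < ε / 2 := fun i hi =>
    (hmesh i hi).trans_le (min_le_right _ _)
  have hang : ∀ i < N, Real.pi - α (i + 1) = (t (i + 2) - t i) / 2 := by
    intro i hi
    obtain ⟨d1, d1p, g1⟩ := chord_geod (hB.mono i hi.le) (hm1 i hi.le) (hB.seg i hi.le)
    obtain ⟨d2, d2p, g2⟩ := chord_geod (hB.mono (i + 1) hi) (hm1 (i + 1) hi) (hB.seg (i + 1) hi)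
    have hp : ee (t (i + 1)) ≠ 0 := by
      intro h; have := ee_norm (t (i + 1)); rw [h, norm_zero] at this; norm_num at this
    have hA : HasAngle (fun s => g i (dist (bc (t i)) (bc (t (i + 1))) - s)) (g (i + 1))
        (Real.arccos (ip (-(dir (t i) (t (i + 1)))) (dir (t (i + 1)) (t (i + 2))))) := by
      apply hinge_ne hp d1p d2p (by rw [norm_neg]; exact dir_norm _ _) (dir_norm _ _) _ g2
      intro s hs
      rw [g1 _ ⟨by linarith [hs.2], by linarith [hs.1]⟩]
      congr 1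
      rw [ee_add_chord (t i) (t (i + 1)), ← d1]
      push_cast; ring
    have hα := angle_unique (hB.ang i hi) hA
    rw [hα, dir_ip, Real.arccos_neg, Real.arccos_cos]
    · ring
    · have := hB.mono i hi.le
      have := hB.mono (i + 1) hi
      have e : t (i + 1 + 1) = t (i + 2) := rfl
      linarith
    · have := hm1 i hi.le
      have := hm1 (i + 1) hi
      have e : t (i + 1 + 1) = t (i + 2) := rfl
      linarith [Real.pi_gt_three]
  have hsum : ∀ n ≤ N, ∑ i ∈ Finset.range n, (Real.pi - α (i + 1))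
      = ((t (n + 1) + t n) - (t 1 + t 0)) / 2 := by
    intro n
    induction n with
    | zero => intro _; simp
    | succ k ih =>
      intro hk
      rw [Finset.sum_range_succ, ih (by omega), hang k (by omega)]
      ring
  rw [hsum N le_rfl]
  have e1 := hm2 0 (Nat.zero_le _)
  have e2 := hm2 N le_rfl
  have p1 := hB.mono 0 (Nat.zero_le _)
  have p2 := hB.mono N le_rfl
  have h0 := hB.first
  have h1 := hB.last
  rw [zero_add] at e1 p1
  rw [abs_lt]
  constructor <;> linarith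

private lemma disk_convex : LambdaConvex Disk bc 1 := by
  constructor
  · intro x hx y hy γ hγ s hs
    obtain ⟨x', rfl⟩ := proj_surj x
    rcases eq_or_lt_of_le (dist_nonneg : 0 ≤ dist (proj x') y) with h0 | h0
    · rw [← h0] at hs
      have : s = 0 := le_antisymm hs.2 hs.1
      rw [this, hγ.1]; exact hx
    · obtain ⟨u, hu, hγu⟩ := isGeod_lift h0 hγ rfl
      obtain ⟨l, hl⟩ : ∃ l, l = dist (proj x') y := ⟨_, rfl⟩
      rw [← hl] at h0 hγu hγ hs
      have hy' : y = proj (x' + l * u) := by rw [← hγ.2.1]; exact hγu l ⟨h0.le, le_rfl⟩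
      rw [hγu s hs, mem_disk]
      rw [mem_disk] at hx
      rw [hy', mem_disk] at hy
      have e : x' + s * u = ((1 - s / l : ℝ) : ℂ) * x' + ((s / l : ℝ) : ℂ) * (x' + l * u) := by
        have hlC : (l : ℂ) ≠ 0 := by exact_mod_cast h0.ne'
        push_cast; field_simp; ring
      have t0 : 0 ≤ s / l := div_nonneg hs.1 h0.le
      have t1 : 0 ≤ 1 - s / l := by
        have := (div_le_one h0).2 hs.2
        linarith
      calc ‖x' + s * u‖ = ‖((1 - s / l : ℝ) : ℂ) * x' + ((s / l : ℝ) : ℂ) * (x' + l * u)‖ := by rw [← e]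
        _ ≤ ‖((1 - s / l : ℝ) : ℂ) * x'‖ + ‖((s / l : ℝ) : ℂ) * (x' + l * u)‖ := norm_add_le _ _
        _ = (1 - s / l) * ‖x'‖ + (s / l) * ‖x' + l * u‖ := by
            rw [norm_mul, norm_mul, Complex.norm_real, Complex.norm_real, Real.norm_eq_abs,
              Real.norm_eq_abs, abs_of_nonneg t0, abs_of_nonneg t1]
        _ ≤ (1 - s / l) * 1 + (s / l) * 1 := by gcongr
        _ = 1 := by ring
  · intro a b _
    exact ⟨b - a, bc_swerve a b, by linarith⟩

private lemma disk_circumradius : IsCircumradius Disk 1 := by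
  constructor
  · refine ⟨proj 0, (mem_disk 0).2 (by simp), ?_, proj 1, (mem_frontier_disk 1).2 (by simp), ?_⟩
    · intro q hq
      obtain ⟨z, rfl⟩ := proj_surj q
      rw [dist_proj, (by simp : ‖(0:ℂ) - z‖ = ‖z‖), (mem_frontier_disk z).1 hq]
      exact min_le_left _ _
    · rw [dist_proj]; simp
  · intro p _
    obtain ⟨z, rfl⟩ := proj_surj p
    -- a unit vector orthogonal to z
    have hv : ∃ v : ℂ, ‖v‖ = 1 ∧ ip z v = 0 := by
      by_cases hz : z = 0
      · exact ⟨1, by simp, by simp [ip, hz]⟩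
      · have hzn : 0 < ‖z‖ := norm_pos_iff.2 hz
        refine ⟨Complex.I * z / ‖z‖, ?_, ?_⟩
        · rw [norm_div, norm_mul, Complex.norm_I, one_mul, Complex.norm_real, norm_norm,
            div_self hzn.ne']
        · have : Complex.I * z / ‖z‖ = ((‖z‖⁻¹ : ℝ) : ℂ) * (Complex.I * z) := by
            push_cast; ring
          rw [this]
          simp [ip]; ring
    obtain ⟨v, hv1, hv2⟩ := hv
    refine ⟨proj v, (mem_frontier_disk v).2 hv1, ?_⟩
    rw [dist_proj]
    have hsq := congrArg (· ^ 2) hv1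
    simp only [Complex.sq_norm, Complex.normSq_apply] at hsq
    unfold ip at hv2
    apply le_min
    · apply (pow_le_pow_iff_left₀ zero_le_one (norm_nonneg _) two_ne_zero).1
      rw [Complex.sq_norm, Complex.normSq_apply]
      simp
      nlinarith [sq_nonneg z.re, sq_nonneg z.im]
    · apply (pow_le_pow_iff_left₀ zero_le_one (norm_nonneg _) two_ne_zero).1
      rw [Complex.sq_norm, Complex.normSq_apply]
      simp
      nlinarith [sq_nonneg z.re, sq_nonneg z.im]

/-! ### The lune -/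

private lemma lune_circumradius : IsCircumradius (lune 1 Real.pi) (Real.sin (Real.pi / 4)) := by
  obtain ⟨r, hr⟩ : ∃ r, r = Real.sin (Real.pi / 4) := ⟨_, rfl⟩
  have hpi := Real.pi_pos
  have hr0 : 0 < r := by rw [hr]; exact Real.sin_pos_of_pos_of_lt_pi (by positivity) (by linarith)
  rw [← hr]
  -- the lune lies in the disk of radius r
  have harc : ∀ z ∈ upperArc 1 Real.pi, ‖z‖ ≤ r := by
    rintro z ⟨s, hs, rfl⟩
    rw [one_mul] at hs
    apply (pow_le_pow_iff_left₀ (norm_nonneg _) hr0.le two_ne_zero).1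
    rw [Complex.sq_norm, Complex.normSq_apply, Complex.add_re, Complex.add_im,
      Complex.re_ofReal_mul, Complex.im_ofReal_mul, Complex.ofReal_re, Complex.ofReal_im,
      Complex.I_re, Complex.I_im, one_mul]
    have hcos : Real.cos (Real.pi / 4) ≤ Real.cos s := by
      rw [← Real.cos_abs s]
      apply Real.cos_le_cos_of_nonneg_of_le_pi (abs_nonneg _) (by linarith)
      exact abs_le.2 ⟨by linarith [hs.1], by linarith [hs.2]⟩
    have hc0 : 0 < Real.cos (Real.pi / 4) := Real.cos_pos_of_mem_Ioo ⟨by linarith, by linarith⟩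
    rw [hr]
    nlinarith [Real.sin_sq_add_cos_sq s, Real.sin_sq_add_cos_sq (Real.pi / 4),
      mul_nonneg hc0.le (sub_nonneg.2 hcos)]
  have hsub : lune 1 Real.pi ⊆ Metric.closedBall 0 r := by
    apply convexHull_min _ (convex_closedBall 0 r)
    rintro z (hz | ⟨w, hw, rfl⟩)
    · rw [mem_closedBall_zero_iff]; exact harc z hz
    · rw [mem_closedBall_zero_iff, norm_neg]; exact harc w hw
  have hcusp : ((r : ℝ) : ℂ) ∈ lune 1 Real.pi ∧ ((-r : ℝ) : ℂ) ∈ lune 1 Real.pi := by
    have h1 : ((-r : ℝ) : ℂ) ∈ upperArc 1 Real.pi := by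
      refine ⟨Real.pi / 4, ⟨by linarith, by linarith⟩, ?_⟩
      simp [hr]
    constructor
    · apply subset_convexHull
      right
      exact ⟨_, h1, by push_cast; ring⟩
    · exact subset_convexHull _ _ (Or.inl h1)
  have h0 : (0 : ℂ) ∈ lune 1 Real.pi := by
    have := (convex_convexHull ℝ (upperArc 1 Real.pi ∪ (fun z => -z) '' upperArc 1 Real.pi))
      hcusp.1 hcusp.2 (show (0:ℝ) ≤ 1/2 by norm_num) (show (0:ℝ) ≤ 1/2 by norm_num) (by norm_num)
    have e : (1/2:ℝ) • ((r : ℝ) : ℂ) + (1/2:ℝ) • ((-r : ℝ) : ℂ) = 0 := by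
      push_cast; simp
    rw [e] at this
    exact this
  have hfr : ∀ z ∈ lune 1 Real.pi, ‖z‖ = r → z ∈ frontier (lune 1 Real.pi) := by
    intro z hz hzr
    refine ⟨subset_closure hz, ?_⟩
    intro hint
    have := interior_mono hsub hint
    rw [interior_closedBall _ hr0.ne', mem_ball_zero_iff] at this
    linarith
  have hf1 := hfr _ hcusp.1 (by rw [Complex.norm_real, Real.norm_eq_abs, abs_of_pos hr0])
  have hf2 := hfr _ hcusp.2 (by rw [Complex.norm_real, Real.norm_eq_abs, abs_neg, abs_of_pos hr0])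
  constructor
  · refine ⟨0, h0, ?_, _, hf1, ?_⟩
    · intro q hq
      have hq' : q ∈ closure (lune 1 Real.pi) := hq.1
      have := closure_minimal hsub Metric.isClosed_closedBall hq'
      rw [mem_closedBall_zero_iff] at this
      rwa [dist_eq_norm, zero_sub, norm_neg]
    · rw [dist_eq_norm, zero_sub, norm_neg, Complex.norm_real, Real.norm_eq_abs, abs_of_pos hr0]
  · intro p _
    by_contra hc
    push Not at hc
    have a1 := hc _ hf1
    have a2 := hc _ hf2
    have a3 := dist_triangle (((r : ℝ) : ℂ)) p (((-r : ℝ) : ℂ))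
    have a4 : dist (((r : ℝ) : ℂ)) (((-r : ℝ) : ℂ)) = 2 * r := by
      rw [dist_eq_norm, ← Complex.ofReal_sub, Complex.norm_real, Real.norm_eq_abs,
        show r - -r = 2 * r by ring, abs_of_pos (by linarith)]
    rw [dist_comm _ p] at a3
    linarith

/-- **Counterexample.** There are a two-dimensional `CBB(0)` space `M` (homeomorphic to the plane)
and a `1`-convex closed topological disk `D` in `M` with boundary length `L = π` whose
circumscribed radius is larger than the one of the Euclidean `1`-convex lune of perimeter `L`. -/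
theorem result : ∃ (M : Type) (_ : MetricSpace M) (D : Set M) (c : ℝ → M) (lam L ρ ρ' : ℝ),
    IsCBB0 M ∧ Nonempty (M ≃ₜ ℂ) ∧ 0 < lam ∧ IsDisk D c L ∧ LambdaConvex D c lam ∧
    lam * L ≤ 2 * Real.pi ∧ IsCircumradius D ρ ∧ IsCircumradius (lune lam L) ρ' ∧ ρ' < ρ := by
  refine ⟨Cone, inferInstance, Disk, bc, 1, Real.pi, 1, Real.sin (Real.pi / 4), cone_cbb, ⟨homeo⟩,
    one_pos, is_disk, disk_convex, by linarith [Real.pi_pos], disk_circumradius,
    lune_circumradius, ?_⟩
  have h1 := Real.sin_sq_add_cos_sq (Real.pi / 4)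
  have hpi := Real.pi_pos
  have h2 : 0 < Real.cos (Real.pi / 4) := Real.cos_pos_of_mem_Ioo ⟨by linarith, by linarith⟩
  nlinarith

end Pool.Agent.Results.MP_4b815d_gt.ConeDisk
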